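import Mathlib
import Pool.Agent.CoprimeSieve.Defs
import Pool.Agent.CoprimeSieve.Strong

set_option autoImplicit false

open Filter Topology Pool.Agent.CoprimeSieve

namespace Pool.Agent.Results.MP_392d13_nt.FullAnswer

/-- The set `Q_n` attains the minimum `M_n(c)` up to a factor `1 + o(1)`, for every fixed `c > 0`,
the common asymptotic size being `ρ(e^c) n` with `ρ` the Dickman function; but `Q_n` is never exactly
extremal for large `n`. -/
theorem result :
    ∃ ρ : ℝ → ℝ, IsDickman ρ ∧ (∀ u : ℝ, 0 < ρ u) ∧ ∀ c : ℝ, 0 < c →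
      Tendsto (fun n : ℕ => (minUnsieved c n : ℝ) / unsieved n (largestPrimes c n)) atTop (𝓝 1) ∧
      (∀ᶠ n : ℕ in atTop, minUnsieved c n < unsieved n (largestPrimes c n)) ∧
      Tendsto (fun n : ℕ => (minUnsieved c n : ℝ) / n) atTop (𝓝 (ρ (Real.exp c))) :=
  ⟨rho, rho_isDickman, rho_pos, fun c hc =>
    ⟨(main_theorem c hc).2.2, strong_false c hc, (main_theorem c hc).1⟩⟩

end Pool.Agent.Results.MP_392d13_nt.FullAnswer
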